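import Mathlib

open MeasureTheory Set

namespace Pool.Agent.Results.MP_ee40c7_co.Fails

/-- Lebesgue area of the convex hull of a finite set of points of the plane. -/
noncomputable def area (P : Finset (ℝ × ℝ)) : ℝ :=
  (volume (convexHull ℝ (P : Set (ℝ × ℝ)))).toReal

/-- The largest hull area of a `k`-element subset of `S`. -/
noncomputable def Tk (k : ℕ) (S : Finset (ℝ × ℝ)) : ℝ :=
  sSup {a | ∃ P ⊆ S, P.card = k ∧ a = area P}

/-- The smallest positive hull area of a `k`-element subset of `S`. -/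
noncomputable def tk (k : ℕ) (S : Finset (ℝ × ℝ)) : ℝ :=
  sInf {a | ∃ P ⊆ S, P.card = k ∧ a = area P ∧ 0 < a}

/-- The infimum of the ratio over all `n`-point sets that are not collinear. -/
noncomputable def f (k n : ℕ) : ℝ :=
  sInf {r | ∃ S : Finset (ℝ × ℝ), S.card = n ∧ ¬ Collinear ℝ (S : Set (ℝ × ℝ)) ∧
    r = Tk k S / tk k S}

/-- The two-line set `S_n`. -/
noncomputable def Sn (n : ℕ) : Finset (ℝ × ℝ) :=
  (Finset.range ((n - 1) / 2 + 1)).image (fun j : ℕ => ((0 : ℝ), (j : ℝ))) ∪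
    (Finset.range ((n - 2) / 2 + 1)).image (fun j : ℕ => ((1 : ℝ), (j : ℝ)))

def R (a1 a2 b1 b2 : ℝ) : Set (ℝ × ℝ) :=
  {p | p.1 ∈ Icc (0 : ℝ) 1 ∧ p.2 ∈ Icc ((1 - p.1) * a1 + p.1 * b1) ((1 - p.1) * a2 + p.1 * b2)}

lemma volR (a1 a2 b1 b2 : ℝ) (ha : a1 ≤ a2) (hb : b1 ≤ b2) :
    volume (R a1 a2 b1 b2) = ENNReal.ofReal (((a2 - a1) + (b2 - b1)) / 2) := by
  have hm : MeasurableSet (R a1 a2 b1 b2) := by
    apply measurableSet_region_between_cc (f := fun x => (1 - x) * a1 + x * b1)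
      (g := fun x => (1 - x) * a2 + x * b2) (by fun_prop) (by fun_prop) measurableSet_Icc
  rw [Measure.volume_eq_prod, Measure.prod_apply hm]
  have h1 : (fun x : ℝ => volume (Prod.mk x ⁻¹' R a1 a2 b1 b2)) =
      (Icc (0 : ℝ) 1).indicator
        (fun x => ENNReal.ofReal ((1 - x) * (a2 - a1) + x * (b2 - b1))) := by
    funext x
    by_cases hx : x ∈ Icc (0 : ℝ) 1
    · rw [indicator_of_mem hx]
      have : Prod.mk x ⁻¹' R a1 a2 b1 b2 =
          Icc ((1 - x) * a1 + x * b1) ((1 - x) * a2 + x * b2) := by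
        ext y; simp only [R, mem_preimage, mem_ofPred_eq]; tauto
      rw [this, Real.volume_Icc]; congr 1; ring
    · rw [indicator_of_notMem hx]
      have : Prod.mk x ⁻¹' R a1 a2 b1 b2 = ∅ := by
        ext y; simp only [R, mem_preimage, mem_ofPred_eq, mem_empty_iff_false]; tauto
      rw [this, measure_empty]
  rw [h1, lintegral_indicator measurableSet_Icc, ← ofReal_integral_eq_lintegral_ofReal]
  · congr 1
    rw [integral_Icc_eq_integral_Ioc, ← intervalIntegral.integral_of_le zero_le_one]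
    have : (fun x : ℝ => (1 - x) * (a2 - a1) + x * (b2 - b1)) =
        fun x : ℝ => (a2 - a1) + ((b2 - b1) - (a2 - a1)) * x := by funext x; ring
    rw [this, intervalIntegral.integral_add (by simp) (by apply Continuous.intervalIntegrable; fun_prop),
      intervalIntegral.integral_const_mul, integral_id]
    simp; ring
  · apply Continuous.integrableOn_Icc; fun_prop
  · filter_upwards [ae_restrict_mem measurableSet_Icc] with x hx
    have := hx.1; have := hx.2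
    have h3 : 0 ≤ (1 - x) * (a2 - a1) := mul_nonneg (by linarith) (by linarith)
    have h4 : 0 ≤ x * (b2 - b1) := mul_nonneg (by linarith) (by linarith)
    simp only [Pi.zero_apply]; linarith

lemma convR (a1 a2 b1 b2 : ℝ) : Convex ℝ (R a1 a2 b1 b2) := by
  intro p hp q hq s t hs ht hst
  obtain ⟨⟨h1, h2⟩, h3, h4⟩ := hp
  obtain ⟨⟨g1, g2⟩, g3, g4⟩ := hq
  have e : t = 1 - s := by linarith
  subst e
  simp only [R, mem_ofPred_eq, mem_Icc, Prod.fst_add, Prod.snd_add, Prod.smul_fst, Prod.smul_snd,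
    smul_eq_mul]
  refine ⟨⟨by positivity, by nlinarith⟩, ?_, ?_⟩
  · nlinarith [mul_le_mul_of_nonneg_left h3 hs, mul_le_mul_of_nonneg_left g3 ht]
  · nlinarith [mul_le_mul_of_nonneg_left h4 hs, mul_le_mul_of_nonneg_left g4 ht]

lemma hull_fin (P : Finset (ℝ × ℝ)) : volume (convexHull ℝ (P : Set (ℝ × ℝ))) ≠ ⊤ :=
  (P.finite_toSet.isCompact_convexHull ℝ).measure_lt_top.ne

lemma up (P : Finset (ℝ × ℝ)) (a1 a2 b1 b2 : ℝ) (ha : a1 ≤ a2) (hb : b1 ≤ b2)
    (h : ∀ p ∈ P, (p.1 = 0 ∧ a1 ≤ p.2 ∧ p.2 ≤ a2) ∨ (p.1 = 1 ∧ b1 ≤ p.2 ∧ p.2 ≤ b2)) :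
    area P ≤ ((a2 - a1) + (b2 - b1)) / 2 := by
  have hs : convexHull ℝ (P : Set (ℝ × ℝ)) ⊆ R a1 a2 b1 b2 := by
    apply convexHull_min _ (convR _ _ _ _)
    intro p hp
    rcases h p hp with ⟨h1, h2, h3⟩ | ⟨h1, h2, h3⟩ <;> simp [R, h1, h2, h3]
  have := measure_mono (μ := volume) hs
  rw [volR _ _ _ _ ha hb] at this
  exact ENNReal.toReal_le_of_le_ofReal (by linarith) this

lemma low (P : Finset (ℝ × ℝ)) (a1 a2 b1 b2 : ℝ) (ha : a1 ≤ a2) (hb : b1 ≤ b2)
    (h1 : ((0 : ℝ), a1) ∈ P) (h2 : ((0 : ℝ), a2) ∈ P) (h3 : ((1 : ℝ), b1) ∈ P)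
    (h4 : ((1 : ℝ), b2) ∈ P) : ((a2 - a1) + (b2 - b1)) / 2 ≤ area P := by
  have hc := convex_convexHull ℝ (P : Set (ℝ × ℝ))
  have hsub := subset_convexHull ℝ (P : Set (ℝ × ℝ))
  have hs : R a1 a2 b1 b2 ⊆ convexHull ℝ (P : Set (ℝ × ℝ)) := by
    rintro ⟨x, y⟩ ⟨⟨x0, x1⟩, hy⟩
    simp only at x0 x1 hy
    have l1 := hc (hsub h1) (hsub h3) (a := 1 - x) (b := x) (by linarith) x0 (by ring)
    have l2 := hc (hsub h2) (hsub h4) (a := 1 - x) (b := x) (by linarith) x0 (by ring)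
    rw [← segment_eq_Icc (hy.1.trans hy.2)] at hy
    obtain ⟨s, t, hs, ht, hst, e⟩ := hy
    have l3 := hc l1 l2 hs ht hst
    convert l3 using 1
    ext
    · simp only [Prod.fst_add, Prod.smul_fst, smul_eq_mul]
      have : t = 1 - s := by linarith
      subst this; ring
    · simp only [Prod.snd_add, Prod.smul_snd, smul_eq_mul]
      rw [← e]; simp only [smul_eq_mul]
  have := measure_mono (μ := volume) hs
  rw [volR _ _ _ _ ha hb] at this
  exact (ENNReal.ofReal_le_iff_le_toReal (hull_fin P)).1 this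

lemma zero (P : Finset (ℝ × ℝ)) (h : ∀ p ∈ P, p.1 = 0) : area P = 0 := by
  have hs : convexHull ℝ (P : Set (ℝ × ℝ)) ⊆ ({0} : Set ℝ) ×ˢ (univ : Set ℝ) := by
    apply convexHull_min _ ((convex_singleton _).prod convex_univ)
    intro p hp
    exact ⟨h p hp, trivial⟩
  have := measure_mono (μ := volume) hs
  rw [Measure.volume_eq_prod, Measure.prod_prod] at this
  simp only [Real.volume_singleton, zero_mul, nonpos_iff_eq_zero] at this
  unfold area
  rw [Measure.volume_eq_prod, this]; rfl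

lemma finA (k : ℕ) (S : Finset (ℝ × ℝ)) : {a | ∃ P ⊆ S, P.card = k ∧ a = area P}.Finite := by
  apply (S.powerset.finite_toSet.image area).subset
  rintro a ⟨P, hP, -, rfl⟩
  exact ⟨P, by simpa using hP, rfl⟩

lemma area_nn (P : Finset (ℝ × ℝ)) : 0 ≤ area P := ENNReal.toReal_nonneg

lemma T_nn (k : ℕ) (S : Finset (ℝ × ℝ)) : 0 ≤ Tk k S :=
  Real.sSup_nonneg (by rintro a ⟨P, -, -, rfl⟩; exact area_nn P)

lemma t_nn (k : ℕ) (S : Finset (ℝ × ℝ)) : 0 ≤ tk k S :=
  Real.sInf_nonneg (by rintro a ⟨P, -, -, -, h⟩; exact h.le)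

lemma t_pos (k : ℕ) (S : Finset (ℝ × ℝ))
    (h : {a | ∃ P ⊆ S, P.card = k ∧ a = area P ∧ 0 < a}.Nonempty) : 0 < tk k S := by
  have hf : {a | ∃ P ⊆ S, P.card = k ∧ a = area P ∧ 0 < a}.Finite :=
    (finA k S).subset (by rintro a ⟨P, h1, h2, h3, -⟩; exact ⟨P, h1, h2, h3⟩)
  obtain ⟨P, -, -, -, h4⟩ := h.csInf_mem hf
  exact h4

def e0 (y : ℕ → ℕ) (i : ℕ) : ℝ × ℝ := ((0 : ℝ), (y i : ℝ))

lemma e0_inj (y : ℕ → ℕ) (hy : Function.Injective y) : Function.Injective (e0 y) := by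
  intro i j h
  have : (y i : ℝ) = y j := congrArg Prod.snd h
  exact hy (by exact_mod_cast this)

lemma card_fan (y : ℕ → ℕ) (hy : Function.Injective y) (N : ℕ) :
    (insert ((1 : ℝ), (0 : ℝ)) ((Finset.range N).image (e0 y))).card = N + 1 := by
  rw [Finset.card_insert_of_notMem, Finset.card_image_of_injective _ (e0_inj y hy),
    Finset.card_range]
  simp [e0]

lemma Sn_ratio (m n : ℕ) (hm : 2 ≤ m) (hn : 2 * m + 1 ≤ n) :
    ((n : ℝ) - 2) / m ≤ Tk (m + 2) (Sn n) / tk (m + 2) (Sn n) := by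
  have hm0 : (0 : ℝ) < m := by exact_mod_cast (by omega : 0 < m)
  have mem0 : ∀ j : ℕ, j ≤ (n - 1) / 2 → ((0 : ℝ), (j : ℝ)) ∈ Sn n := fun j hj =>
    Finset.mem_union_left _ (Finset.mem_image.2 ⟨j, Finset.mem_range.2 (by omega), rfl⟩)
  have mem1 : ∀ j : ℕ, j ≤ (n - 2) / 2 → ((1 : ℝ), (j : ℝ)) ∈ Sn n := fun j hj =>
    Finset.mem_union_right _ (Finset.mem_image.2 ⟨j, Finset.mem_range.2 (by omega), rfl⟩)
  have hP : insert ((1 : ℝ), (0 : ℝ)) ((Finset.range (m + 1)).image (e0 id)) ⊆ Sn n := by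
    intro p hp
    rcases Finset.mem_insert.1 hp with rfl | hp
    · simpa using mem1 0 (by omega)
    · obtain ⟨j, hj, rfl⟩ := Finset.mem_image.1 hp
      exact mem0 j (by have := Finset.mem_range.1 hj; omega)
  have hc := card_fan id Function.injective_id (m + 1)
  have hl : ((m - 0 : ℝ) + (0 - 0)) / 2 ≤
      area (insert ((1 : ℝ), (0 : ℝ)) ((Finset.range (m + 1)).image (e0 id))) := by
    apply low _ _ _ _ _ hm0.le le_rfl
    · exact Finset.mem_insert_of_mem (Finset.mem_image.2 ⟨0, by simp, by simp [e0]⟩)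
    · exact Finset.mem_insert_of_mem (Finset.mem_image.2 ⟨m, by simp, by simp [e0]⟩)
    · simp
    · simp
  have hu : area (insert ((1 : ℝ), (0 : ℝ)) ((Finset.range (m + 1)).image (e0 id))) ≤
      ((m - 0 : ℝ) + (0 - 0)) / 2 := by
    apply up _ _ _ _ _ hm0.le le_rfl
    intro p hp
    rcases Finset.mem_insert.1 hp with rfl | hp
    · simp
    · obtain ⟨j, hj, rfl⟩ := Finset.mem_image.1 hp
      left
      have : j ≤ m := by have := Finset.mem_range.1 hj; omega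
      simp [e0, this]
  have hmem : area (insert ((1 : ℝ), (0 : ℝ)) ((Finset.range (m + 1)).image (e0 id))) ∈
      {a | ∃ P ⊆ Sn n, P.card = m + 2 ∧ a = area P ∧ 0 < a} :=
    ⟨_, hP, hc, rfl, by linarith⟩
  have ht1 : tk (m + 2) (Sn n) ≤ m / 2 := by
    have := csInf_le ⟨0, by rintro a ⟨P, -, -, -, h⟩; exact h.le⟩ hmem
    unfold tk; linarith
  have ht0 := t_pos _ _ ⟨_, hmem⟩
  -- the four corners
  set a := (n - 1) / 2 with ha
  set b := (n - 2) / 2 with hb
  have hC : ({((0 : ℝ), (0 : ℝ)), ((0 : ℝ), (a : ℝ)), ((1 : ℝ), (0 : ℝ)), ((1 : ℝ), (b : ℝ))} :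
      Finset (ℝ × ℝ)) ⊆ Sn n := by
    intro p hp
    simp only [Finset.mem_insert, Finset.mem_singleton] at hp
    rcases hp with rfl | rfl | rfl | rfl
    · simpa using mem0 0 (by omega)
    · exact mem0 a le_rfl
    · simpa using mem1 0 (by omega)
    · exact mem1 b le_rfl
  obtain ⟨Q, q1, q2, q3⟩ := Finset.exists_subsuperset_card_eq (n := m + 2) hC
    (Finset.card_le_four.trans (by omega)) (hc ▸ Finset.card_le_card hP)
  have hQ : ((a - 0 : ℝ) + (b - 0)) / 2 ≤ area Q :=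
    low Q _ _ _ _ (by positivity) (by positivity) (q1 (by simp)) (q1 (by simp)) (q1 (by simp))
      (q1 (by simp))
  have hT : area Q ≤ Tk (m + 2) (Sn n) := le_csSup (finA _ _).bddAbove ⟨Q, q2, q3, rfl⟩
  have hab : (a : ℝ) + b = n - 2 := by
    have : a + b + 2 = n := by omega
    have : (a : ℝ) + b + 2 = n := by exact_mod_cast this
    linarith
  have hn2 : (0 : ℝ) ≤ n - 2 := by rw [← hab]; positivity
  rw [div_le_div_iff₀ hm0 ht0]
  have h5 : ((n : ℝ) - 2) * tk (m + 2) (Sn n) ≤ (n - 2) * (m / 2) :=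
    mul_le_mul_of_nonneg_left ht1 hn2
  have h6 : ((n : ℝ) - 2) / 2 * m ≤ Tk (m + 2) (Sn n) * m :=
    mul_le_mul_of_nonneg_right (by linarith) hm0.le
  linarith

def yy (m i : ℕ) : ℕ := i + m * (i / m)

lemma yy_mono (m : ℕ) : StrictMono (yy m) := by
  intro i j h
  have := Nat.mul_le_mul_left m (Nat.div_le_div_right (c := m) h.le)
  unfold yy; omega

lemma yy_add (m i : ℕ) (hm : 0 < m) : yy m (i + m) = yy m i + 2 * m := by
  unfold yy
  rw [Nat.add_div_right _ hm]; ring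

noncomputable def Sc (m N : ℕ) : Finset (ℝ × ℝ) :=
  insert ((1 : ℝ), (0 : ℝ)) ((Finset.range (N + 1)).image (e0 (yy m)))

lemma Sc_ratio (m N : ℕ) (hm : 2 ≤ m) (hN : m ≤ N) :
    Tk (m + 2) (Sc m N) / tk (m + 2) (Sc m N) ≤ (yy m N : ℝ) / 2 / m := by
  have hm0 : (0 : ℝ) < m := by exact_mod_cast (by omega : 0 < m)
  have hT : Tk (m + 2) (Sc m N) ≤ (yy m N : ℝ) / 2 := by
    apply Real.sSup_le _ (by positivity)
    rintro a ⟨P, hP, -, rfl⟩
    have := up P 0 (yy m N) 0 0 (by positivity) le_rfl (by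
      intro p hp
      rcases Finset.mem_insert.1 (hP hp) with rfl | hp
      · simp
      · obtain ⟨j, hj, rfl⟩ := Finset.mem_image.1 hp
        left
        have : yy m j ≤ yy m N :=
          (yy_mono m).monotone (by have := Finset.mem_range.1 hj; omega)
        simp [e0, this])
    linarith
  have key : ∀ P ⊆ Sc m N, P.card = m + 2 → ((1 : ℝ), (0 : ℝ)) ∈ P → (m : ℝ) ≤ area P := by
    intro P hP hc h1
    have hsub : P.erase ((1 : ℝ), (0 : ℝ)) ⊆ (Finset.range (N + 1)).image (e0 (yy m)) :=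
      Finset.subset_insert_iff.1 hP
    obtain ⟨I, -, hI⟩ := Finset.subset_image_iff.1 hsub
    have hcI : I.card = m + 1 := by
      have := Finset.card_erase_of_mem h1
      rw [← hI, Finset.card_image_of_injective _ (e0_inj _ (yy_mono m).injective)] at this
      omega
    have hne : I.Nonempty := Finset.card_pos.1 (by omega)
    have hgap : I.min' hne + m ≤ I.max' hne := by
      have h2 : I ⊆ Finset.Icc (I.min' hne) (I.max' hne) := fun i hi =>
        Finset.mem_Icc.2 ⟨I.min'_le i hi, I.le_max' i hi⟩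
      have := Finset.card_le_card h2
      rw [Nat.card_Icc] at this
      omega
    have hy : yy m (I.min' hne) + 2 * m ≤ yy m (I.max' hne) := by
      rw [← yy_add _ _ (by omega)]; exact (yy_mono m).monotone hgap
    have hy' : (yy m (I.min' hne) : ℝ) + 2 * m ≤ yy m (I.max' hne) := by exact_mod_cast hy
    have hin : ∀ i ∈ I, e0 (yy m) i ∈ P := fun i hi =>
      Finset.mem_of_mem_erase (hI ▸ Finset.mem_image_of_mem _ hi)
    have := low P (yy m (I.min' hne)) (yy m (I.max' hne)) 0 0 (by linarith) le_rfl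
      (hin _ (I.min'_mem hne)) (hin _ (I.max'_mem hne)) h1 h1
    linarith
  have hcard : (Sc m N).card = N + 2 := card_fan _ (yy_mono m).injective (N + 1)
  obtain ⟨Q, q1, q2, q3⟩ := Finset.exists_subsuperset_card_eq (n := m + 2)
    (s := {((1 : ℝ), (0 : ℝ))}) (t := Sc m N) (by simp [Sc]) (by simp) (by omega)
  have ht : (m : ℝ) ≤ tk (m + 2) (Sc m N) := by
    apply le_csInf
    · exact ⟨area Q, Q, q2, q3, rfl, hm0.trans_le (key Q q2 q3 (q1 (by simp)))⟩
    · rintro a ⟨P, hP, hc, rfl, hpos⟩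
      apply key P hP hc
      by_contra hn
      have := zero P (by
        intro p hp
        rcases Finset.mem_insert.1 (hP hp) with rfl | hp'
        · exact absurd hp hn
        · obtain ⟨j, -, rfl⟩ := Finset.mem_image.1 hp'
          rfl)
      linarith
  exact div_le_div₀ (by positivity) hT hm0 ht

lemma Sc_nc (m N : ℕ) (hm : 2 ≤ m) (hN : m ≤ N) : ¬ Collinear ℝ (Sc m N : Set (ℝ × ℝ)) := by
  intro h
  have h0 : ((1 : ℝ), (0 : ℝ)) ∈ (Sc m N : Set (ℝ × ℝ)) := by simp [Sc]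
  have hi : ∀ i ≤ N, e0 (yy m) i ∈ (Sc m N : Set (ℝ × ℝ)) := fun i hi =>
    Finset.mem_coe.2 (Finset.mem_insert_of_mem
      (Finset.mem_image_of_mem _ (Finset.mem_range.2 (by omega))))
  obtain ⟨v, hv⟩ := (collinear_iff_of_mem h0).1 h
  obtain ⟨r, hr⟩ := hv _ (hi 0 (by omega))
  obtain ⟨s, hs⟩ := hv _ (hi 1 (by omega))
  have y0 : yy m 0 = 0 := by simp [yy]
  have y1 : yy m 1 = 1 := by simp [yy, Nat.div_eq_of_lt (show 1 < m by omega)]
  have r1 := congrArg Prod.fst hr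
  have r2 := congrArg Prod.snd hr
  have s1 := congrArg Prod.fst hs
  have s2 := congrArg Prod.snd hs
  simp only [e0, y0, y1, vadd_eq_add, Prod.fst_add, Prod.snd_add, Prod.smul_fst, Prod.smul_snd,
    smul_eq_mul, Nat.cast_zero, Nat.cast_one, add_zero] at r1 r2 s1 s2
  rcases mul_eq_zero.1 r2.symm with h1 | h1
  · rw [h1] at r1; simp at r1
  · rw [h1] at s2; simp at s2

lemma main (k n : ℕ) (hk : 4 ≤ k) (hn : 2 * k - 3 ≤ n) (hd : ¬ (k - 2) ∣ (n - 2)) :
    f k n < Tk k (Sn n) / tk k (Sn n) := by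
  obtain ⟨m, rfl⟩ : ∃ m, k = m + 2 := ⟨k - 2, by omega⟩
  obtain ⟨N, rfl⟩ : ∃ N, n = N + 2 := ⟨n - 2, by omega⟩
  simp only [Nat.add_sub_cancel] at hd
  have hm0 : (0 : ℝ) < m := by exact_mod_cast (by omega : 0 < m)
  have h1 := Sn_ratio m (N + 2) (by omega) (by omega)
  have h2 := Sc_ratio m N (by omega) (by omega)
  have h3 : f (m + 2) (N + 2) ≤ Tk (m + 2) (Sc m N) / tk (m + 2) (Sc m N) := by
    apply csInf_le
    · exact ⟨0, by rintro r ⟨S, -, -, rfl⟩; exact div_nonneg (T_nn _ _) (t_nn _ _)⟩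
    · exact ⟨Sc m N, card_fan _ (yy_mono m).injective (N + 1), Sc_nc m N (by omega) (by omega), rfl⟩
  have h4 : yy m N < 2 * N := by
    have := Nat.div_add_mod N m
    have : N % m ≠ 0 := fun h => hd (Nat.dvd_of_mod_eq_zero h)
    unfold yy; omega
  have h5 : (yy m N : ℝ) < 2 * N := by exact_mod_cast h4
  have h6 : (yy m N : ℝ) / 2 / m < (((N + 2 : ℕ) : ℝ) - 2) / m := by
    apply div_lt_div_of_pos_right _ hm0
    push_cast; linarith
  linarith

theorem result :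
    (∀ k n : ℕ, 4 ≤ k → 2 * k - 3 ≤ n → ¬ (k - 2) ∣ (n - 2) →
      f k n < Tk k (Sn n) / tk k (Sn n)) ∧
    ¬ (∀ k : ℕ, 4 ≤ k → ∃ N : ℕ, ∀ n : ℕ, N ≤ n → k ≤ n →
      f k n = Tk k (Sn n) / tk k (Sn n)) := by
  refine ⟨main, fun h => ?_⟩
  obtain ⟨N, hN⟩ := h 4 le_rfl
  have h1 := hN (2 * N + 5) (by omega) (by omega)
  have h2 := main 4 (2 * N + 5) le_rfl (by omega) (by omega)
  exact h2.ne h1

end Pool.Agent.Results.MP_ee40c7_co.Fails
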